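import Mathlib

/-! MP_d8826e_co: the smallest integer `k ≥ 3` with `b_{k-1} > 2/(k+1)` exists and is at most `49`,
and `b_{k-1} > 2/(k+1)` for every `k ≥ 52`. The hypergraphs are the supports of the nonzero words of
binary linear codes of dimension 5, trimmed to edges of the same size. -/

set_option autoImplicit false

namespace Pool.Agent.H.MP_d8826e_co.AL.Draft

open Finset

/-- `u` and `v` are neighbours: they are distinct and some edge contains both. -/
def Nbr {V : Type} (E : Finset (Finset V)) (u v : V) : Prop :=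
  u ≠ v ∧ ∃ e ∈ E, u ∈ e ∧ v ∈ e

/-- The hypergraph with vertex set `V` and edge set `E` belongs to the class `𝓗_k`: it has an edge,
it is `k`-uniform and has no isolated vertex and no isolated edge. -/
structure InH {V : Type} (k : ℕ) (E : Finset (Finset V)) : Prop where
  nonempty : E.Nonempty
  uniform : ∀ e ∈ E, e.card = k
  noIsolatedVertex : ∀ v : V, ∃ e ∈ E, v ∈ e
  noIsolatedEdge : ∀ e ∈ E, ∃ f ∈ E, f ≠ e ∧ ∃ v, v ∈ e ∧ v ∈ f

/-- `T` is a total transversal: it meets every edge, and every vertex of `T` has a neighbour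
in `T`. -/
structure IsTotalTransversal {V : Type} (E : Finset (Finset V)) (T : Finset V) : Prop where
  meets : ∀ e ∈ E, ∃ v ∈ T, v ∈ e
  total : ∀ v ∈ T, ∃ w ∈ T, Nbr E v w

/-- The minimum size of a total transversal. -/
noncomputable def tauT {V : Type} (E : Finset (Finset V)) : ℕ :=
  sInf {t | ∃ T : Finset V, IsTotalTransversal E T ∧ T.card = t}

/-- `b k` is the supremum of `τ_t(H) / (n_H + m_H)` over the class `𝓗_k`. -/
noncomputable def b (k : ℕ) : ℝ :=
  sSup {r : ℝ | ∃ (V : Type) (_ : Fintype V) (E : Finset (Finset V)), InH k E ∧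
    r = (tauT E : ℝ) / ((Fintype.card V : ℝ) + (E.card : ℝ))}

/-! ### General facts -/

theorem tauT_le {V : Type} {E : Finset (Finset V)} {T : Finset V} (h : IsTotalTransversal E T) :
    tauT E ≤ T.card := Nat.sInf_le ⟨T, h, rfl⟩

theorem univ_total {V : Type} [Fintype V] {k : ℕ} (hk : 2 ≤ k) {E : Finset (Finset V)}
    (h : InH k E) : IsTotalTransversal E (Finset.univ : Finset V) := by
  refine ⟨fun e he => ?_, fun v _ => ?_⟩
  · have : 0 < e.card := by rw [h.uniform e he]; omega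
    obtain ⟨v, hv⟩ := card_pos.1 this
    exact ⟨v, mem_univ v, hv⟩
  · obtain ⟨e, he, hv⟩ := h.noIsolatedVertex v
    have : 1 < e.card := by rw [h.uniform e he]; omega
    obtain ⟨w, hw, hne⟩ := exists_mem_ne this v
    exact ⟨w, mem_univ w, hne.symm, e, he, hv, hw⟩

theorem bddAbove_set {k : ℕ} (hk : 2 ≤ k) :
    BddAbove {r : ℝ | ∃ (V : Type) (_ : Fintype V) (E : Finset (Finset V)), InH k E ∧
      r = (tauT E : ℝ) / ((Fintype.card V : ℝ) + (E.card : ℝ))} := by
  refine ⟨1, ?_⟩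
  rintro r ⟨V, _, E, hE, rfl⟩
  have h1 : tauT E ≤ Fintype.card V := tauT_le (univ_total hk hE)
  have h2 : (tauT E : ℝ) ≤ Fintype.card V := by exact_mod_cast h1
  have h3 : 0 < (E.card : ℝ) := by exact_mod_cast card_pos.2 hE.nonempty
  have h4 : (0 : ℝ) ≤ Fintype.card V := Nat.cast_nonneg _
  rw [div_le_one (by linarith)]
  linarith

theorem le_b {k : ℕ} (hk : 2 ≤ k) {V : Type} [Fintype V] {E : Finset (Finset V)} (h : InH k E) :
    (tauT E : ℝ) / ((Fintype.card V : ℝ) + (E.card : ℝ)) ≤ b k :=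
  le_csSup (bddAbove_set hk) ⟨V, inferInstance, E, h, rfl⟩

/-- A `k`-uniform family on fewer than `2k` vertices all of whose transversals have at least
`t ≥ 2` vertices gives a lower bound for `b k`. Vertices in no edge are deleted. -/
theorem b_ge_of_family {k t : ℕ} (hk : 2 ≤ k) (ht : 2 ≤ t) {V : Type} [Fintype V]
    (hV : Fintype.card V < 2 * k) (E : Finset (Finset V)) (hE : E.Nonempty)
    (hu : ∀ e ∈ E, e.card = k)
    (hT : ∀ T : Finset V, (∀ e ∈ E, ∃ v ∈ T, v ∈ e) → t ≤ T.card) :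
    (t : ℝ) / ((Fintype.card V : ℝ) + (E.card : ℝ)) ≤ b k := by
  classical
  let U := {v : V // ∃ e ∈ E, v ∈ e}
  let g : Finset V → Finset U := fun e => e.subtype fun v => ∃ e ∈ E, v ∈ e
  have hg : ∀ e ∈ E, (g e).map (Function.Embedding.subtype _) = e := by
    intro e he
    exact Finset.subtype_map_of_mem fun v hv => ⟨e, he, hv⟩
  have hgc : ∀ e ∈ E, (g e).card = k := by
    intro e he
    rw [← hu e he]
    conv_rhs => rw [← hg e he]
    rw [card_map]
  have hgm : ∀ (e : Finset V) (v : U), v ∈ g e ↔ (v : V) ∈ e := by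
    intro e v
    exact Finset.mem_subtype
  have hginj : ∀ e ∈ E, ∀ f ∈ E, g e = g f → e = f := by
    intro e he f hf h
    rw [← hg e he, ← hg f hf, h]
  have hUV : Fintype.card U ≤ Fintype.card V := Fintype.card_subtype_le _
  have hcT : ∀ T : Finset U, (∀ e ∈ E.image g, ∃ v ∈ T, v ∈ e) → t ≤ T.card := by
    intro T h
    have := hT (T.map (Function.Embedding.subtype _)) (by
      intro e he
      obtain ⟨v, hvT, hve⟩ := h (g e) (mem_image_of_mem g he)
      refine ⟨v, ?_, (hgm e v).1 hve⟩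
      exact mem_map.2 ⟨v, hvT, rfl⟩)
    rwa [card_map] at this
  have hin : InH k (E.image g) := by
    refine ⟨hE.image g, ?_, ?_, ?_⟩
    · intro e he
      obtain ⟨e', he', rfl⟩ := mem_image.1 he
      exact hgc e' he'
    · rintro ⟨v, e, he, hv⟩
      exact ⟨g e, mem_image_of_mem g he, (hgm e _).2 hv⟩
    · intro e he
      -- there is another edge
      have hne : ∃ f ∈ E.image g, f ≠ e := by
        by_contra hcon
        push Not at hcon
        have hpos : 0 < e.card := by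
          obtain ⟨e', he', rfl⟩ := mem_image.1 he
          rw [hgc e' he']; omega
        obtain ⟨v, hv⟩ := card_pos.1 hpos
        have := hcT {v} (by
          intro f hf
          rw [hcon f hf]
          exact ⟨v, mem_singleton_self v, hv⟩)
        rw [card_singleton] at this
        omega
      obtain ⟨f, hf, hfe⟩ := hne
      refine ⟨f, hf, hfe, ?_⟩
      by_contra hcon
      push Not at hcon
      have hdis : Disjoint e f := by
        rw [Finset.disjoint_left]
        exact hcon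
      have hle : (e ∪ f).card ≤ Fintype.card U := card_le_univ _
      obtain ⟨e', he', rfl⟩ := mem_image.1 he
      obtain ⟨f', hf', rfl⟩ := mem_image.1 hf
      rw [card_union_of_disjoint hdis, hgc e' he', hgc f' hf'] at hle
      omega
  have hne : {s | ∃ T : Finset U, IsTotalTransversal (E.image g) T ∧ T.card = s}.Nonempty :=
    ⟨_, Finset.univ, univ_total hk hin, rfl⟩
  have htau : t ≤ tauT (E.image g) := by
    obtain ⟨T, hT', hcard⟩ := Nat.sInf_mem hne
    have : tauT (E.image g) = T.card := hcard.symm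
    rw [this]
    exact hcT T hT'.meets
  refine le_trans ?_ (le_b hk hin)
  have h1 : (t : ℝ) ≤ tauT (E.image g) := by exact_mod_cast htau
  have h2 : ((E.image g).card : ℝ) ≤ E.card := by exact_mod_cast card_image_le
  have h3 : (Fintype.card U : ℝ) ≤ Fintype.card V := by exact_mod_cast hUV
  have h4 : (0 : ℝ) < ((E.image g).card : ℝ) := by exact_mod_cast card_pos.2 hin.nonempty
  have h5 : (0 : ℝ) ≤ Fintype.card U := Nat.cast_nonneg _
  apply div_le_div₀ <;> first | positivity | linarith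

/-! ### Codes of dimension 5 -/

/-- the vectors of length `5` over the field with two elements -/
abbrev Vec := Fin 5 → ZMod 2

/-- the bilinear form -/
def dot (v z : Vec) : ZMod 2 := ∑ i, v i * z i

theorem dot_sub (v z w : Vec) : dot v (z - w) = dot v z - dot v w := by
  simp [dot, mul_sub, sum_sub_distrib]

/-- `Code n w`: there is a family of `n` vectors such that every nonzero functional is nonzero on at
least `w` of them. -/
def Code (n w : ℕ) : Prop :=
  ∃ (V : Type) (_ : Fintype V) (φ : V → Vec), Fintype.card V = n ∧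
    ∀ z : Vec, z ≠ 0 → w ≤ (univ.filter fun p : V => dot (φ p) z ≠ 0).card

theorem Code.add {n w n' w' : ℕ} (h : Code n w) (h' : Code n' w') : Code (n + n') (w + w') := by
  obtain ⟨V, _, φ, hV, hφ⟩ := h
  obtain ⟨W, _, ψ, hW, hψ⟩ := h'
  refine ⟨V ⊕ W, inferInstance, Sum.elim φ ψ, by rw [Fintype.card_sum, hV, hW], ?_⟩
  intro z hz
  have key : (univ.filter fun p : V ⊕ W => dot (Sum.elim φ ψ p) z ≠ 0)
      = (univ.filter fun p : V => dot (φ p) z ≠ 0).disjSum
        (univ.filter fun p : W => dot (ψ p) z ≠ 0) := by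
    ext p
    rcases p with p | p <;> simp
  rw [key, card_disjSum]
  exact add_le_add (hφ z hz) (hψ z hz)

theorem Code.zero : Code 0 0 :=
  ⟨Empty, inferInstance, fun p => p.elim, rfl, fun _ _ => Nat.zero_le _⟩

theorem Code.mul {n w : ℕ} (h : Code n w) (y : ℕ) : Code (y * n) (y * w) := by
  induction y with
  | zero => simpa using Code.zero
  | succ y ih =>
    rw [Nat.succ_mul, Nat.succ_mul]
    exact ih.add h

/-- the nonzero vectors outside the subspace of the vectors supported in the first `i` places -/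
abbrev Outside (i : ℕ) := {v : Vec // v ≠ 0 ∧ ∃ j : Fin 5, i ≤ j.1 ∧ v j ≠ 0}

theorem code31 : Code 31 16 :=
  ⟨Outside 0, inferInstance, fun p => p.1, by decide +kernel, by decide +kernel⟩

theorem code30 : Code 30 15 :=
  ⟨Outside 1, inferInstance, fun p => p.1, by decide +kernel, by decide +kernel⟩

theorem code28 : Code 28 14 :=
  ⟨Outside 2, inferInstance, fun p => p.1, by decide +kernel, by decide +kernel⟩

theorem code24 : Code 24 12 :=
  ⟨Outside 3, inferInstance, fun p => p.1, by decide +kernel, by decide +kernel⟩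

theorem code16 : Code 16 8 :=
  ⟨Outside 4, inferInstance, fun p => p.1, by decide +kernel, by decide +kernel⟩

theorem card_nonzero : (univ.filter fun z : Vec => z ≠ 0).card = 31 := by
  rw [filter_ne' univ (0 : Vec), card_erase_of_mem (mem_univ _), card_univ, Fintype.card_fun,
    ZMod.card, Fintype.card_fin]
  norm_num

theorem one_ne : (fun _ => 1 : Vec) ≠ 0 := by
  intro h
  have := congrFun h 0
  simp at this

/-- the five-dimensional pigeonhole: a set of less than five vertices misses some support -/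
theorem exists_missed {V : Type} (φ : V → Vec) (T : Finset V) (hT : T.card < 5) :
    ∃ z : Vec, z ≠ 0 ∧ ∀ p ∈ T, dot (φ p) z = 0 := by
  classical
  have hc : Fintype.card (T → ZMod 2) < Fintype.card Vec := by
    rw [Fintype.card_fun, Fintype.card_fun, ZMod.card, Fintype.card_fin, Fintype.card_coe]
    exact Nat.pow_lt_pow_right (by norm_num) hT
  obtain ⟨z, w, hne, heq⟩ := Fintype.exists_ne_map_eq_of_card_lt
    (fun z : Vec => fun p : T => dot (φ p.1) z) hc
  refine ⟨z - w, sub_ne_zero.2 hne, fun p hp => ?_⟩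
  rw [dot_sub]
  exact sub_eq_zero.2 (congrFun heq ⟨p, hp⟩)

/-- A code gives a lower bound for `b`. -/
theorem b_ge_of_code {n k : ℕ} (hk : 2 ≤ k) (hn : n < 2 * k) (h : Code n k) :
    (5 : ℝ) / (n + 31) ≤ b k := by
  obtain ⟨V, _, φ, hV, hφ⟩ := h
  have hsub : ∀ z : Vec, ∃ e : Finset V, z ≠ 0 →
      ((∀ p ∈ e, dot (φ p) z ≠ 0) ∧ e.card = k) := by
    intro z
    by_cases hz : z = 0
    · exact ⟨∅, fun h => absurd hz h⟩
    · obtain ⟨e, he, hec⟩ := exists_subset_card_eq (hφ z hz)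
      exact ⟨e, fun _ => ⟨fun p hp => (mem_filter.1 (he hp)).2, hec⟩⟩
  choose e he using hsub
  classical
  set E : Finset (Finset V) := (univ.filter fun z : Vec => z ≠ 0).image e with hE
  have hmem : ∀ z : Vec, z ≠ 0 → e z ∈ E := fun z hz =>
    mem_image_of_mem e (mem_filter.2 ⟨mem_univ z, hz⟩)
  have hex : ∀ f ∈ E, ∃ z : Vec, z ≠ 0 ∧ e z = f := by
    intro f hf
    obtain ⟨z, hz, hzf⟩ := mem_image.1 hf
    exact ⟨z, (mem_filter.1 hz).2, hzf⟩
  have hEc : E.card ≤ 31 := by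
    rw [← card_nonzero]
    exact card_image_le
  have hEne : E.Nonempty := ⟨_, hmem _ one_ne⟩
  have hmain : ((5 : ℕ) : ℝ) / ((Fintype.card V : ℝ) + (E.card : ℝ)) ≤ b k := by
    refine b_ge_of_family hk (by norm_num) (by rw [hV]; exact hn) E hEne ?_ ?_
    · intro f hf
      obtain ⟨z, hz, rfl⟩ := hex f hf
      exact (he z hz).2
    · intro T hT
      by_contra hlt
      push Not at hlt
      obtain ⟨z, hz, hzT⟩ := exists_missed φ T hlt
      obtain ⟨p, hpT, hp⟩ := hT (e z) (hmem z hz)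
      exact (he z hz).1 p hp (hzT p hpT)
  clear_value E
  have h2 : (E.card : ℝ) ≤ 31 := by exact_mod_cast hEc
  have h4 : (0 : ℝ) < (E.card : ℝ) := by exact_mod_cast card_pos.2 hEne
  have h5 : (0 : ℝ) ≤ n := Nat.cast_nonneg _
  rw [hV] at hmain
  refine le_trans ?_ hmain
  rw [Nat.cast_ofNat]
  exact div_le_div_of_nonneg_left (by norm_num) (by linarith) (by linarith)

/-- The code used for `K = 16 y - (b₁ + 2 b₂ + 4 b₃ + 8 b₄)`. -/
theorem code_main (a b₁ b₂ b₃ b₄ : ℕ) :
    Code (31 * a + 30 * b₁ + 28 * b₂ + 24 * b₃ + 16 * b₄)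
      (16 * a + 15 * b₁ + 14 * b₂ + 12 * b₃ + 8 * b₄) := by
  have h := ((((code31.mul a).add (code30.mul b₁)).add (code28.mul b₂)).add (code24.mul b₃)).add
    (code16.mul b₄)
  convert h using 1 <;> ring

/-- `b_K > 2/(K+2)` as soon as a suitable code exists. -/
theorem b_gt {K : ℕ} (hK : K = 48 ∨ 51 ≤ K) : (2 : ℝ) / (K + 2) < b K := by
  obtain ⟨a, b₁, b₂, b₃, b₄, hw, hn, hn2⟩ : ∃ a b₁ b₂ b₃ b₄ : ℕ,
      16 * a + 15 * b₁ + 14 * b₂ + 12 * b₃ + 8 * b₄ = K ∧
      31 * a + 30 * b₁ + 28 * b₂ + 24 * b₃ + 16 * b₄ < 2 * K ∧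
      2 * (31 * a + 30 * b₁ + 28 * b₂ + 24 * b₃ + 16 * b₄) + 52 < 5 * K := by
    rcases hK with rfl | hK
    · exact ⟨3, 0, 0, 0, 0, by norm_num, by norm_num, by norm_num⟩
    · -- the deficiency of `K` modulo 16
      have hd : ∃ y d : ℕ, K + d = 16 * y ∧ d < 16 := by
        refine ⟨(K + 15) / 16, 16 * ((K + 15) / 16) - K, ?_, ?_⟩ <;> omega
      obtain ⟨y, d, hyd, hd16⟩ := hd
      have hb : ∀ d < 16, ∃ b₁ b₂ b₃ b₄ : ℕ, b₁ ≤ 1 ∧ b₂ ≤ 1 ∧ b₃ ≤ 1 ∧ b₄ ≤ 1 ∧
          b₁ + 2 * b₂ + 4 * b₃ + 8 * b₄ = d := by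
        intro d hd
        refine ⟨d % 2, d / 2 % 2, d / 4 % 2, d / 8 % 2, ?_, ?_, ?_, ?_, ?_⟩ <;> omega
      obtain ⟨b₁, b₂, b₃, b₄, h1, h2, h3, h4, hs⟩ := hb d hd16
      refine ⟨y - (b₁ + b₂ + b₃ + b₄), b₁, b₂, b₃, b₄, ?_, ?_, ?_⟩
      · omega
      · omega
      · interval_cases b₁ <;> interval_cases b₂ <;> interval_cases b₃ <;> interval_cases b₄ <;>
          omega
  have hK2 : 2 ≤ K := by omega
  have h := b_ge_of_code hK2 (n := 31 * a + 30 * b₁ + 28 * b₂ + 24 * b₃ + 16 * b₄) hn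
    (hw ▸ code_main a b₁ b₂ b₃ b₄)
  refine lt_of_lt_of_le ?_ h
  generalize 31 * a + 30 * b₁ + 28 * b₂ + 24 * b₃ + 16 * b₄ = n at hn2
  have h5 : (2 : ℝ) * n + 52 < 5 * K := by exact_mod_cast hn2
  have h6 : (0 : ℝ) ≤ n := Nat.cast_nonneg _
  have h7 : (0 : ℝ) ≤ K := Nat.cast_nonneg _
  rw [div_lt_div_iff₀ (by linarith) (by linarith)]
  linarith

/-- The smallest integer `k ≥ 3` with `b_{k-1} > 2/(k+1)` exists and is at most `49`, and
`b_{k-1} > 2/(k+1)` for every `k ≥ 52`. -/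
theorem result : (∃ k₀ : ℕ, IsLeast {k : ℕ | 3 ≤ k ∧ 2 / ((k : ℝ) + 1) < b (k - 1)} k₀ ∧ k₀ ≤ 49) ∧
    ∀ k : ℕ, 52 ≤ k → 2 / ((k : ℝ) + 1) < b (k - 1) := by
  have key : ∀ k : ℕ, (k = 49 ∨ 52 ≤ k) → 2 / ((k : ℝ) + 1) < b (k - 1) := by
    intro k hk
    have h := b_gt (K := k - 1) (by omega)
    have h1 : ((k - 1 : ℕ) : ℝ) = k - 1 := by
      rw [Nat.cast_sub (by omega)]; simp
    rw [h1] at h
    have h2 : (k : ℝ) - 1 + 2 = k + 1 := by ring
    rwa [h2] at h
  refine ⟨?_, fun k hk => key k (Or.inr hk)⟩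
  have h49 : 49 ∈ {k : ℕ | 3 ≤ k ∧ 2 / ((k : ℝ) + 1) < b (k - 1)} :=
    ⟨by norm_num, key 49 (Or.inl rfl)⟩
  refine ⟨sInf {k : ℕ | 3 ≤ k ∧ 2 / ((k : ℝ) + 1) < b (k - 1)}, ⟨Nat.sInf_mem ⟨49, h49⟩, ?_⟩,
    Nat.sInf_le h49⟩
  intro k hk
  exact Nat.sInf_le hk

end Pool.Agent.H.MP_d8826e_co.AL.Draft
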